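import Mathlib

namespace Pool.Agent.Results.MP_bfa999_lc.Lower

open Module

/-- `N(q,k) = (q^k - 1)/(q - 1)` -/
def NN (q k : ℕ) : ℕ := (q ^ k - 1) / (q - 1)

/-- `F^{m x n}` contains a `k`-dimensional code with exactly `N(q,k)` nonzero rank weights -/
def MWS (F : Type) [Field F] [Fintype F] (k m n : ℕ) : Prop :=
  ∃ C : Submodule F (Matrix (Fin m) (Fin n) F), finrank F C = k ∧
    Set.ncard {r | ∃ A ∈ C, A ≠ 0 ∧ A.rank = r} = NN (Fintype.card F) k

variable {F : Type} [Field F] [Fintype F]

theorem eig {V : Type} [AddCommGroup V] [Module F V] [FiniteDimensional F V] (M : End F V) :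
    ∑ c : F, finrank F (M.eigenspace c) ≤ finrank F V := by
  classical
  rw [← finrank_directSum]
  exact LinearMap.finrank_le_finrank_of_injective
    (M.eigenspaces_iSupIndep.dfinsupp_lsum_injective)

theorem pencil {m n : ℕ} (A B : Matrix (Fin m) (Fin n) F) :
    Fintype.card F * B.rank ≤ B.rank + ∑ c : F, (A - c • B).rank := by
  obtain ⟨Q, hQ⟩ := LinearMap.exists_rightInverse_of_surjective B.mulVecLin.rangeRestrict
    (LinearMap.range_rangeRestrict _)
  obtain ⟨P, hP⟩ := LinearMap.exists_leftInverse_of_injective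
    (LinearMap.range B.mulVecLin).subtype (Submodule.ker_subtype _)
  have hB : P ∘ₗ B.mulVecLin ∘ₗ Q = LinearMap.id := by
    ext1 x
    have h1 := LinearMap.congr_fun hQ x
    have h2 := LinearMap.congr_fun hP x
    simp only [LinearMap.comp_apply, LinearMap.id_apply] at h1 h2 ⊢
    have h3 : B.mulVecLin (Q x) = (LinearMap.range B.mulVecLin).subtype x :=
      congrArg Subtype.val h1
    rw [h3, h2]
  set M : End F (LinearMap.range B.mulVecLin) := P ∘ₗ A.mulVecLin ∘ₗ Q with hM
  have h1 := eig M
  have h2 : ∀ c : F, B.rank ≤ finrank F (M.eigenspace c) + (A - c • B).rank := by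
    intro c
    have e : M - c • 1 = P ∘ₗ (A - c • B).mulVecLin ∘ₗ Q := by
      have : (A - c • B).mulVecLin = A.mulVecLin - c • B.mulVecLin := by
        ext1 x; ext i; simp [Matrix.sub_mulVec, Matrix.smul_mulVec]
      rw [this, LinearMap.sub_comp, LinearMap.comp_sub, LinearMap.smul_comp, LinearMap.comp_smul,
        hB]
      rfl
    have a1 := LinearMap.finrank_range_add_finrank_ker (M - c • 1)
    have a2 : finrank F (LinearMap.range (M - c • 1)) ≤ (A - c • B).rank := by
      rw [e, LinearMap.range_comp]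
      exact (Submodule.finrank_map_le _ _).trans
        (Submodule.finrank_mono (LinearMap.range_comp_le_range _ _))
    rw [End.eigenspace_def]
    have a3 : B.rank = finrank F (LinearMap.range B.mulVecLin) := rfl
    omega
  have h3 := Finset.sum_le_sum (s := Finset.univ) fun c _ => h2 c
  rw [Finset.sum_add_distrib, Finset.sum_const, Finset.card_univ, smul_eq_mul] at h3
  have a3 : B.rank = finrank F (LinearMap.range B.mulVecLin) := rfl
  omega

theorem NN_mul {q : ℕ} (hq : 2 ≤ q) (k : ℕ) : NN q k * (q - 1) + 1 = q ^ k := by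
  have h1 : q - 1 ∣ q ^ k - 1 := by simpa using Nat.sub_dvd_pow_sub_pow q 1 k
  have h2 : 1 ≤ q ^ k := Nat.one_le_pow _ _ (by omega)
  rw [NN, Nat.div_mul_cancel h1]; omega

theorem dist (T : Finset ℕ) : T.card * (T.card - 1) ≤ (∑ x ∈ T, x) * 2 := by
  induction T using Finset.induction_on_max with
  | empty => simp
  | insert a T h ih =>
    have h1 : a ∉ T := fun e => lt_irrefl _ (h a e)
    have h2 : T.card ≤ a := by
      simpa using Finset.card_le_card (t := Finset.range a) fun x hx => Finset.mem_range.2 (h x hx)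
    rw [Finset.card_insert_of_notMem h1, Finset.sum_insert h1, Nat.add_sub_cancel]
    rcases hT : T.card with _ | c
    · simp
    · rw [hT] at ih h2
      simp only [Nat.add_sub_cancel] at ih
      nlinarith

theorem lower {k m n : ℕ} (h : MWS F (k + 2) m n) :
    Fintype.card F * NN (Fintype.card F) (k + 2) ≤ 2 * min m n := by
  classical
  obtain ⟨C, hC, hN⟩ := h
  have hq : 2 ≤ Fintype.card F := Fintype.one_lt_card
  set q := Fintype.card F with hqd
  have hcard : Fintype.card C = q ^ (k + 2) := by rw [Module.card_eq_pow_finrank (K := F), hC]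
  obtain ⟨B, -, hB⟩ := Finset.exists_max_image (Finset.univ : Finset C) (fun A => A.1.rank)
    ⟨0, Finset.mem_univ _⟩
  set r := B.1.rank with hr
  have h1 : q ^ (k + 2) * (q * r) ≤ q ^ (k + 2) * r + q * ∑ A : C, A.1.rank := by
    have := Finset.sum_le_sum (s := Finset.univ) fun (A : C) _ => pencil A.1 B.1
    rw [Finset.sum_add_distrib, Finset.sum_const, Finset.sum_const, Finset.card_univ, hcard,
      Finset.sum_comm] at this
    have e : ∀ c : F, ∑ A : C, (A.1 - c • B.1).rank = ∑ A : C, A.1.rank := fun c =>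
      (Equiv.subRight (c • B)).sum_comp (fun A : C => A.1.rank)
    simp only [e, Finset.sum_const, Finset.card_univ, smul_eq_mul] at this
    exact this
  set S : Finset C := Finset.univ.erase 0 with hS
  set R : Finset ℕ := S.image fun A => A.1.rank with hR
  have hRc : R.card = NN q (k + 2) := by
    rw [← hN, ← Set.ncard_coe_finset]
    congr 1
    ext ρ
    simp only [hR, hS, Finset.coe_image, Set.mem_image, Finset.mem_coe, Finset.mem_erase,
      Finset.mem_univ, and_true, Set.mem_ofPred_eq]
    constructor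
    · rintro ⟨A, h1, h2⟩
      exact ⟨A.1, A.2, fun e => h1 (Subtype.ext e), h2⟩
    · rintro ⟨A, h0, h1, h2⟩
      exact ⟨⟨A, h0⟩, fun e => h1 (congrArg Subtype.val e), h2⟩
  have h2 : (q - 1) * ∑ ρ ∈ R, (r - ρ) ≤ ∑ A ∈ S, (r - A.1.rank) := by
    rw [Finset.sum_comp (fun ρ => r - ρ) (fun A : C => A.1.rank), Finset.mul_sum]
    refine Finset.sum_le_sum fun ρ hρ => ?_
    rw [smul_eq_mul]
    apply Nat.mul_le_mul_right
    obtain ⟨A, hA, rfl⟩ := Finset.mem_image.1 hρ
    have hA0 : A ≠ 0 := (Finset.mem_erase.1 hA).1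
    have : q - 1 = ((Finset.univ : Finset F).erase 0).card := by
      rw [Finset.card_erase_of_mem (Finset.mem_univ _), Finset.card_univ]
    rw [this]
    refine Finset.card_le_card_of_injOn (fun c => c • A) (fun c hc => ?_)
      (fun c _ d _ e => smul_left_injective F hA0 e)
    have hc0 : c ≠ 0 := by simpa using hc
    simp only [Finset.coe_filter, Set.mem_ofPred_eq, hS, Finset.mem_erase, Finset.mem_univ,
      and_true]
    exact ⟨smul_ne_zero hc0 hA0,
      Matrix.rank_smul_of_mem_nonZeroDivisors A.1 (mem_nonZeroDivisors_of_ne_zero hc0)⟩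
  have h3 : R.card * (R.card - 1) ≤ (∑ ρ ∈ R, (r - ρ)) * 2 := by
    have hinj : Set.InjOn (fun ρ => r - ρ) R := by
      intro a ha b hb e
      obtain ⟨A, -, rfl⟩ := Finset.mem_image.1 ha
      obtain ⟨A', -, rfl⟩ := Finset.mem_image.1 hb
      have := hB A (Finset.mem_univ _)
      have := hB A' (Finset.mem_univ _)
      simp only at *
      omega
    have a1 := dist (R.image fun ρ => r - ρ)
    rwa [Finset.card_image_of_injOn hinj, Finset.sum_image hinj] at a1
  have h4 : ∑ A ∈ S, (r - A.1.rank) + ∑ A : C, A.1.rank + r = q ^ (k + 2) * r := by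
    have a1 : ∑ A : C, ((r - A.1.rank) + A.1.rank) = q ^ (k + 2) * r := by
      rw [Finset.sum_congr rfl fun A _ => Nat.sub_add_cancel (hB A (Finset.mem_univ _))]
      simp [hcard]
    rw [Finset.sum_add_distrib, ← Finset.add_sum_erase _ _ (Finset.mem_univ (0 : C))] at a1
    simp only [ZeroMemClass.coe_zero, Matrix.rank_zero, Nat.sub_zero] at a1
    rw [hS]
    omega
  have h5 : r ≤ min m n := le_min (Matrix.rank_le_height _) (Matrix.rank_le_width _)
  have n1 := NN_mul hq (k + 2)
  have n2 := NN_mul hq (k + 1)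
  have n3 : 1 ≤ NN q (k + 1) := by
    by_contra hc
    have : NN q (k + 1) = 0 := by omega
    rw [this] at n2
    have : 2 ≤ q ^ (k + 1) := hq.trans (Nat.le_self_pow (by omega) q)
    omega
  rw [hRc] at h3
  obtain ⟨p, hp⟩ : ∃ p, q = p + 1 := ⟨q - 1, by omega⟩
  have p1 : 1 ≤ p := by omega
  rw [pow_succ, ← n2] at n1 h1 h4
  generalize NN q (k + 2) = N at *
  generalize NN q (k + 1) = N' at *
  generalize ∑ ρ ∈ R, (r - ρ) = σ at *
  generalize ∑ A ∈ S, (r - A.1.rank) = X at *
  generalize ∑ A : C, A.1.rank = T at *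
  clear_value q r
  subst hp
  simp only [Nat.add_sub_cancel] at *
  have e1 : N = (p + 1) * N' + 1 := by
    apply Nat.eq_of_mul_eq_mul_right (show 0 < p by omega)
    nlinarith
  have e2 : X ≤ N' * p * r := by
    apply Nat.le_of_mul_le_mul_left _ (show 0 < p + 1 by omega)
    nlinarith
  have e3 : σ ≤ N' * r := by
    apply Nat.le_of_mul_le_mul_left _ (show 0 < p by omega)
    nlinarith
  have e4 : (p + 1) * N ≤ 2 * r := by
    apply Nat.le_of_mul_le_mul_left _ (show 0 < N' by omega)
    have : N - 1 = (p + 1) * N' := by omega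
    rw [this] at h3
    nlinarith
  omega

theorem rank_pad {J : Type} [Fintype J] [DecidableEq J] {m n : ℕ} (e : J ↪ Fin m) (f : J ↪ Fin n)
    (D : Matrix J J F) :
    ((1 : Matrix (Fin m) (Fin m) F).submatrix id e * D *
      (1 : Matrix (Fin n) (Fin n) F).submatrix f id).rank = D.rank := by
  apply le_antisymm
  · exact (Matrix.rank_mul_le_left _ _).trans (Matrix.rank_mul_le_right _ _)
  · have h1 : (1 : Matrix (Fin m) (Fin m) F).submatrix e id *
        (1 : Matrix (Fin m) (Fin m) F).submatrix id e = 1 := by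
      rw [← Matrix.submatrix_mul _ _ _ _ _ Function.bijective_id, one_mul,
        Matrix.submatrix_one _ e.injective]
    have h2 : (1 : Matrix (Fin n) (Fin n) F).submatrix f id *
        (1 : Matrix (Fin n) (Fin n) F).submatrix id f = 1 := by
      rw [← Matrix.submatrix_mul _ _ _ _ _ Function.bijective_id, one_mul,
        Matrix.submatrix_one _ f.injective]
    have h3 : D = (1 : Matrix (Fin m) (Fin m) F).submatrix e id *
        ((1 : Matrix (Fin m) (Fin m) F).submatrix id e * D *
          (1 : Matrix (Fin n) (Fin n) F).submatrix f id) *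
        (1 : Matrix (Fin n) (Fin n) F).submatrix id f := by
      rw [← Matrix.mul_assoc, ← Matrix.mul_assoc, h1, Matrix.one_mul, Matrix.mul_assoc, h2,
        Matrix.mul_one]
    conv_lhs => rw [h3]
    exact (Matrix.rank_mul_le_left _ _).trans (Matrix.rank_mul_le_right _ _)

theorem upper {m n : ℕ} (h : Fintype.card F * (Fintype.card F + 1) ≤ 2 * min m n) :
    MWS F 2 m n := by
  classical
  have hq : 2 ≤ Fintype.card F := Fintype.one_lt_card
  set q := Fintype.card F with hqd
  let ι : F ≃ Fin q := Fintype.equivFin F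
  let J := Σ c : F, Fin ((ι c).val + 1)
  have hJ : Fintype.card J * 2 = q * (q + 1) := by
    rw [Fintype.card_sigma]
    simp only [Fintype.card_fin]
    rw [ι.sum_comp (fun i : Fin q => i.val + 1), Fin.sum_univ_eq_sum_range (fun i => i + 1) q]
    have := Finset.sum_range_id_mul_two (q + 1)
    rw [Finset.sum_range_succ'] at this
    simp only [add_zero, Nat.add_sub_cancel] at this
    rw [this, mul_comm]
  obtain ⟨e⟩ : Nonempty (J ↪ Fin m) :=
    Function.Embedding.nonempty_of_card_le (by rw [Fintype.card_fin]; omega)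
  obtain ⟨f⟩ : Nonempty (J ↪ Fin n) :=
    Function.Embedding.nonempty_of_card_le (by rw [Fintype.card_fin]; omega)
  let φ : (F × F) →ₗ[F] Matrix (Fin m) (Fin n) F :=
    { toFun := fun v => (1 : Matrix (Fin m) (Fin m) F).submatrix id e *
        Matrix.diagonal (fun j : J => v.1 - j.1 * v.2) *
        (1 : Matrix (Fin n) (Fin n) F).submatrix f id
      map_add' := fun v w => by
        rw [← Matrix.add_mul, ← Matrix.mul_add, Matrix.diagonal_add]
        congr 3; funext j; simp only [Prod.fst_add, Prod.snd_add]; ring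
      map_smul' := fun c v => by
        rw [RingHom.id_apply, ← Matrix.smul_mul, ← Matrix.mul_smul, ← Matrix.diagonal_smul]
        congr 3; funext j; simp only [Prod.smul_fst, Prod.smul_snd, Pi.smul_apply, smul_eq_mul]
        ring }
  have hr : ∀ v : F × F, (φ v).rank = Fintype.card J - Fintype.card {j : J // v.1 - j.1 * v.2 = 0} := by
    intro v
    refine (rank_pad e f _).trans ?_
    rw [Matrix.rank_diagonal, ← Fintype.card_subtype_compl]
  have hfib : ∀ c : F, Fintype.card {j : J // j.1 = c} = (ι c).val + 1 := by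
    intro c
    rw [← Fintype.card_fin ((ι c).val + 1)]
    refine Fintype.card_congr ⟨fun j => j.2 ▸ j.1.2, fun i => ⟨⟨c, i⟩, rfl⟩, ?_, fun _ => rfl⟩
    rintro ⟨⟨c', i⟩, rfl⟩
    rfl
  have hr1 : ∀ a : F, a ≠ 0 → (φ (a, 0)).rank = Fintype.card J := by
    intro a ha
    rw [hr]
    simp [ha]
  have hr2 : ∀ a b : F, b ≠ 0 → (φ (a, b)).rank = Fintype.card J - ((ι (a / b)).val + 1) := by
    intro a b hb
    rw [hr, ← hfib]
    congr 1
    refine Fintype.card_congr (Equiv.subtypeEquivRight fun j => ?_)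
    simp only
    rw [eq_div_iff hb, sub_eq_zero, eq_comm]
  have hJq : q + 1 ≤ Fintype.card J := by nlinarith
  have hpos : ∀ v : F × F, v ≠ 0 → ∃ i ≤ q, (φ v).rank = Fintype.card J - i := by
    rintro ⟨a, b⟩ hv
    by_cases hb : b = 0
    · subst hb
      exact ⟨0, by omega, hr1 a (fun e => hv (by rw [e]; rfl))⟩
    · exact ⟨_, (ι (a / b)).2, hr2 a b hb⟩
  have hne : ∀ v : F × F, v ≠ 0 → φ v ≠ 0 := by
    intro v hv e0
    obtain ⟨i, h1, h2⟩ := hpos v hv
    rw [e0, Matrix.rank_zero] at h2
    omega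
  have hinj : Function.Injective φ := by
    rw [← LinearMap.ker_eq_bot, LinearMap.ker_eq_bot']
    intro v hv
    by_contra hc
    exact hne v hc hv
  refine ⟨LinearMap.range φ, by rw [LinearMap.finrank_range_of_inj hinj]; simp, ?_⟩
  have hset : {r | ∃ A ∈ LinearMap.range φ, A ≠ 0 ∧ A.rank = r} =
      ((Finset.range (q + 1)).image fun i => Fintype.card J - i : Finset ℕ) := by
    ext r
    simp only [Set.mem_ofPred_eq, Finset.coe_image, Set.mem_image, Finset.mem_coe,
      Finset.mem_range]
    constructor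
    · rintro ⟨_, ⟨v, rfl⟩, h1, rfl⟩
      obtain ⟨i, h2, h3⟩ := hpos v (fun e => h1 (by rw [e, map_zero]))
      exact ⟨i, by omega, h3.symm⟩
    · rintro ⟨i, hi, rfl⟩
      rcases i with _ | i
      · exact ⟨φ (1, 0), ⟨_, rfl⟩, hne _ (by simp), hr1 1 one_ne_zero⟩
      · refine ⟨φ (ι.symm ⟨i, by omega⟩, 1), ⟨_, rfl⟩, hne _ (by simp), ?_⟩
        rw [hr2 _ _ one_ne_zero]; simp
  rw [hset, Set.ncard_coe_finset, Finset.card_image_of_injOn, Finset.card_range]
  · have := NN_mul hq 2
    apply Nat.eq_of_mul_eq_mul_right (show 0 < q - 1 by omega)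
    obtain ⟨p, hp⟩ : ∃ p, q = p + 1 := ⟨q - 1, by omega⟩
    rw [← hqd]
    rw [hp] at this ⊢
    simp only [Nat.add_sub_cancel] at this ⊢
    nlinarith
  · intro a ha b hb e
    simp only [Finset.coe_range, Set.mem_Iio] at ha hb e
    omega

theorem result : ∀ (F : Type) [Field F] [Fintype F],
    (∀ k m n : ℕ, 2 ≤ k → MWS F k m n →
      Fintype.card F * NN (Fintype.card F) k ≤ 2 * min m n) ∧
    ∀ m n : ℕ, MWS F 2 m n ↔ Fintype.card F * (Fintype.card F + 1) ≤ 2 * min m n := by
  intro F _ _
  refine ⟨fun k m n hk h => ?_, fun m n => ⟨fun h => ?_, upper⟩⟩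
  · obtain ⟨k, rfl⟩ : ∃ j, k = j + 2 := ⟨k - 2, by omega⟩
    exact lower h
  · have h1 := lower (k := 0) h
    have hq : 2 ≤ Fintype.card F := Fintype.one_lt_card
    have h2 := NN_mul hq 2
    have h3 : NN (Fintype.card F) 2 = Fintype.card F + 1 := by
      apply Nat.eq_of_mul_eq_mul_right (show 0 < Fintype.card F - 1 by omega)
      obtain ⟨p, hp⟩ : ∃ p, Fintype.card F = p + 1 := ⟨Fintype.card F - 1, by omega⟩
      rw [hp] at h2 ⊢
      simp only [Nat.add_sub_cancel] at h2 ⊢
      nlinarith
    rwa [zero_add, h3] at h1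

end Pool.Agent.Results.MP_bfa999_lc.Lower
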